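import Pool.Agent.Lib.MP_405077_mp.Defs

/-!
MP_405077_mp, module ADM (helper40): basic facts on admissible densities.
-/

set_option autoImplicit false

open MeasureTheory Set Filter Topology

namespace Pool.Agent.Lib.MP_405077_mp.H40

/-- The singular part of the kernel, to the power `5/2`. -/
noncomputable def Fs : E3 → ℝ :=
  (Metric.ball (0 : E3) 1).indicator (fun z : E3 => (‖z‖⁻¹) ^ (5 / 2 : ℝ))

theorem Fs_nonneg (z : E3) : 0 ≤ Fs z :=
  Set.indicator_nonneg (fun _ _ => Real.rpow_nonneg (inv_nonneg.2 (norm_nonneg _)) _) z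

theorem Fs_int : Integrable Fs := by
  unfold Fs
  rw [integrable_indicator_iff measurableSet_ball]
  have h := (integrableOn_fun_norm_addHaar (E := E3) (volume : Measure E3)
    (f := fun r : ℝ => (r⁻¹) ^ (5 / 2 : ℝ)) (r := 1)).2 ?_
  · exact h
  · have hd : Module.finrank ℝ E3 = 3 := by simp
    rw [hd]
    have hc : IntegrableOn (fun y : ℝ => y ^ (-1 / 2 : ℝ)) (Ioo 0 1) := by
      have := (intervalIntegral.intervalIntegrable_rpow' (a := 0) (b := 1) (r := (-1 / 2 : ℝ))
        (by norm_num))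
      rw [intervalIntegrable_iff_integrableOn_Ioo_of_le zero_le_one] at this
      exact this
    refine hc.congr_fun (fun y hy => ?_) measurableSet_Ioo
    have hy0 : 0 < y := hy.1
    show y ^ (-1 / 2 : ℝ) = y ^ (3 - 1) • (y⁻¹) ^ (5 / 2 : ℝ)
    rw [smul_eq_mul, Real.inv_rpow hy0.le, ← Real.rpow_neg hy0.le, ← Real.rpow_natCast,
      ← Real.rpow_add hy0]
    norm_num

theorem kern_le {s : ℝ} (hs : 0 ≤ s) (z : E3) : s / ‖z‖ ≤ (s + s ^ (5 / 3 : ℝ)) + Fs z := by
  have h53 : 0 ≤ s ^ (5 / 3 : ℝ) := Real.rpow_nonneg hs _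
  by_cases h : z ∈ Metric.ball (0 : E3) 1
  · have hF : Fs z = (‖z‖⁻¹) ^ (5 / 2 : ℝ) := Set.indicator_of_mem h _
    have hi : 0 ≤ ‖z‖⁻¹ := inv_nonneg.2 (norm_nonneg _)
    have hconj : (5 / 3 : ℝ).HolderConjugate (5 / 2) := by
      rw [Real.holderConjugate_iff]; norm_num
    have y := Real.young_inequality_of_nonneg hs hi hconj
    have h52 : 0 ≤ (‖z‖⁻¹) ^ (5 / 2 : ℝ) := Real.rpow_nonneg hi _
    rw [hF, div_eq_mul_inv]
    have e : s ^ (5 / 3 : ℝ) / (5 / 3) + (‖z‖⁻¹) ^ (5 / 2 : ℝ) / (5 / 2) =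
      3 / 5 * s ^ (5 / 3 : ℝ) + 2 / 5 * (‖z‖⁻¹) ^ (5 / 2 : ℝ) := by ring
    linarith
  · have h' : 1 ≤ ‖z‖ := by simpa using h
    have : s / ‖z‖ ≤ s := div_le_self hs h'
    have := Fs_nonneg z
    linarith

theorem adm_facts : AdmStatement := by
  intro σ hσ
  have mσ := hσ.int.aestronglyMeasurable
  have hdomi : ∀ x : E3, Integrable (fun y => (σ y + σ y ^ (5 / 3 : ℝ)) + Fs (x - y)) := fun x =>
    (hσ.int.add hσ.int53).add (Fs_int.comp_sub_left x)
  have hk : ∀ x y : E3, σ y / ‖x - y‖ ≤ (σ y + σ y ^ (5 / 3 : ℝ)) + Fs (x - y) := fun x y =>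
    kern_le (hσ.nonneg y) (x - y)
  have hkn : ∀ x y : E3, 0 ≤ σ y / ‖x - y‖ := fun x y => div_nonneg (hσ.nonneg y) (norm_nonneg _)
  have h1 : ∀ x, Integrable (fun y => σ y / ‖x - y‖) := by
    intro x
    refine (hdomi x).mono' ?_ (Filter.Eventually.of_forall (fun y => ?_))
    · have h3 : AEStronglyMeasurable (fun y : E3 => ‖x - y‖) (volume : Measure E3) :=
        Measurable.aestronglyMeasurable (by fun_prop)
      exact (mσ.aemeasurable.div h3.aemeasurable).aestronglyMeasurable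
    · rw [Real.norm_eq_abs, abs_of_nonneg (hkn x y)]
      exact hk x y
  set C := (∫ y, (σ y + σ y ^ (5 / 3 : ℝ))) + ∫ z, Fs z with hC
  have h2 : ∀ x, pot σ x ≤ C := by
    intro x
    unfold pot
    refine (integral_mono (h1 x) (hdomi x) (hk x)).trans (le_of_eq ?_)
    have : Integrable (fun y => σ y + σ y ^ (5 / 3 : ℝ)) := hσ.int.add hσ.int53
    rw [integral_add this (Fs_int.comp_sub_left x), integral_sub_left_eq_self]
  have hp0 : ∀ x, 0 ≤ pot σ x := fun x => integral_nonneg (hkn x)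
  have e1 : ∀ x, (∫ y, σ x * σ y / ‖x - y‖) = σ x * pot σ x := by
    intro x
    unfold pot
    rw [← integral_const_mul]
    congr 1
    funext y
    ring
  have mp : AEStronglyMeasurable (fun p : E3 × E3 => σ p.1 * σ p.2 / ‖p.1 - p.2‖)
      (volume.prod volume) := by
    have g1 : AEStronglyMeasurable (fun p : E3 × E3 => σ p.1) (volume.prod volume) := mσ.comp_fst
    have g2 : AEStronglyMeasurable (fun p : E3 × E3 => σ p.2) (volume.prod volume) := mσ.comp_snd
    have g3 : AEStronglyMeasurable (fun p : E3 × E3 => ‖p.1 - p.2‖) (volume.prod volume) :=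
      Measurable.aestronglyMeasurable (by fun_prop)
    exact ((g1.mul g2).aemeasurable.div g3.aemeasurable).aestronglyMeasurable
  have en : ∀ x, (∫ y, ‖σ x * σ y / ‖x - y‖‖) = σ x * pot σ x := by
    intro x
    rw [← e1 x]
    congr 1
    funext y
    rw [Real.norm_eq_abs, abs_of_nonneg
      (div_nonneg (mul_nonneg (hσ.nonneg x) (hσ.nonneg y)) (norm_nonneg _))]
  have h4 : Integrable (fun p : E3 × E3 => σ p.1 * σ p.2 / ‖p.1 - p.2‖) (volume.prod volume) := by
    rw [integrable_prod_iff mp]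
    refine ⟨Filter.Eventually.of_forall (fun x => ?_), ?_⟩
    · refine ((h1 x).const_mul (σ x)).congr (Filter.Eventually.of_forall (fun y => ?_))
      show σ x * (σ y / ‖x - y‖) = σ x * σ y / ‖x - y‖
      ring
    · refine (hσ.int.const_mul C).mono' mp.norm.integral_prod_right'
        (Filter.Eventually.of_forall (fun x => ?_))
      show ‖∫ y, ‖σ x * σ y / ‖x - y‖‖‖ ≤ C * σ x
      rw [en x, Real.norm_eq_abs, abs_of_nonneg (mul_nonneg (hσ.nonneg x) (hp0 x)), mul_comm]
      exact mul_le_mul_of_nonneg_right (h2 x) (hσ.nonneg x)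
  refine ⟨h1, ⟨C, h2⟩, ?_, h4⟩
  have := h4.integral_prod_left
  refine this.congr (Filter.Eventually.of_forall (fun x => ?_))
  exact e1 x

end Pool.Agent.Lib.MP_405077_mp.H40
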