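import Pool.Agent.Lib.MP_405077_mp.Defs

/-!
MP_405077_mp, module EXIST (helper40): basic facts.
-/

set_option autoImplicit false

open MeasureTheory Set Filter Topology

namespace Pool.Agent.Lib.MP_405077_mp.H40

/-! ### Bounded functions with bounded support -/

theorem bc_dom {f g : E3 → ℝ} (hf : BC f) (hg : Measurable g) (C : ℝ) (hC : 0 ≤ C)
    (h : ∀ x, |g x| ≤ C * |f x|) : BC g := by
  obtain ⟨M, hM⟩ := hf.bdd
  obtain ⟨r, hr⟩ := hf.supp
  refine ⟨hg, ⟨C * M, fun x => (h x).trans (mul_le_mul_of_nonneg_left (hM x) hC)⟩,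
    ⟨r, fun x hx => ?_⟩⟩
  have := h x
  rw [hr x hx, abs_zero, mul_zero] at this
  exact abs_nonpos_iff.1 this

theorem bc_add {f g : E3 → ℝ} (hf : BC f) (hg : BC g) : BC (fun x => f x + g x) := by
  obtain ⟨Mf, hMf⟩ := hf.bdd
  obtain ⟨Mg, hMg⟩ := hg.bdd
  obtain ⟨rf, hrf⟩ := hf.supp
  obtain ⟨rg, hrg⟩ := hg.supp
  refine ⟨hf.meas.add hg.meas,
    ⟨Mf + Mg, fun x => (abs_add_le _ _).trans (add_le_add (hMf x) (hMg x))⟩,
    ⟨max rf rg, fun x hx => ?_⟩⟩
  rw [hrf x (lt_of_le_of_lt (le_max_left _ _) hx), hrg x (lt_of_le_of_lt (le_max_right _ _) hx),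
    add_zero]

theorem bc_const_mul {f : E3 → ℝ} (c : ℝ) (hf : BC f) : BC (fun x => c * f x) :=
  bc_dom hf (hf.meas.const_mul c) |c| (abs_nonneg _) (fun x => by rw [abs_mul])

theorem bc_sub {f g : E3 → ℝ} (hf : BC f) (hg : BC g) : BC (fun x => f x - g x) := by
  have := bc_add hf (bc_const_mul (-1) hg)
  have e : (fun x => f x + -1 * g x) = fun x => f x - g x := by
    funext x; ring
  rwa [e] at this

theorem bc_mul {f g : E3 → ℝ} (hf : BC f) (hg : Measurable g) (hb : ∃ C : ℝ, ∀ x, |g x| ≤ C) :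
    BC (fun x => f x * g x) := by
  obtain ⟨C, hC⟩ := hb
  have hC0 : 0 ≤ C := (abs_nonneg _).trans (hC 0)
  refine bc_dom hf (hf.meas.mul hg) C hC0 (fun x => ?_)
  rw [abs_mul, mul_comm]
  exact mul_le_mul_of_nonneg_right (hC x) (abs_nonneg _)

theorem bc_zero : BC (fun _ => (0 : ℝ)) :=
  ⟨measurable_const, ⟨0, fun _ => by simp⟩, ⟨0, fun _ _ => rfl⟩⟩

theorem bc_integrable {f : E3 → ℝ} (hf : BC f) : Integrable f := by
  obtain ⟨M, hM⟩ := hf.bdd
  obtain ⟨r, hr⟩ := hf.supp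
  have hs : Function.support f ⊆ Metric.closedBall (0 : E3) r := by
    intro x hx
    by_contra h
    apply hx
    apply hr
    simpa using h
  rw [← integrableOn_iff_integrable_of_support_subset hs]
  exact Measure.integrableOn_of_bounded (M := M) measure_closedBall_lt_top.ne
    hf.meas.aestronglyMeasurable (Filter.Eventually.of_forall (fun x => by simpa using hM x))

/-- The indicator function of the ball of radius `R`. -/
noncomputable def one (R : ℝ) : E3 → ℝ := (Metric.closedBall (0 : E3) R).indicator (fun _ => 1)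

theorem one_nonneg (R : ℝ) (x : E3) : 0 ≤ one R x :=
  Set.indicator_nonneg (fun _ _ => zero_le_one) x

theorem one_le_one (R : ℝ) (x : E3) : one R x ≤ 1 :=
  Set.indicator_le_self' (fun _ _ => zero_le_one) x

theorem one_in {R : ℝ} {x : E3} (hx : ‖x‖ ≤ R) : one R x = 1 :=
  Set.indicator_of_mem (by simpa using hx) _

theorem one_out {R : ℝ} {x : E3} (hx : R < ‖x‖) : one R x = 0 :=
  Set.indicator_of_notMem (by simpa using hx) _

theorem bc_one (R : ℝ) : BC (one R) :=
  ⟨measurable_const.indicator measurableSet_closedBall,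
    ⟨1, fun x => by rw [abs_of_nonneg (one_nonneg R x)]; exact one_le_one R x⟩,
    ⟨R, fun _ hx => one_out hx⟩⟩

/-! ### Potentials -/

theorem pot_add (hpot : PotStatement) {f g : E3 → ℝ} (hf : BC f) (hg : BC g) (x : E3) :
    pot (fun y => f y + g y) x = pot f x + pot g x := by
  unfold pot
  rw [← integral_add ((hpot f hf).1 x) ((hpot g hg).1 x)]
  congr 1
  funext y
  ring

theorem pot_const_mul (c : ℝ) (f : E3 → ℝ) (x : E3) :
    pot (fun y => c * f y) x = c * pot f x := by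
  unfold pot
  rw [← integral_const_mul]
  congr 1
  funext y
  ring

theorem pot_sub (hpot : PotStatement) {f g : E3 → ℝ} (hf : BC f) (hg : BC g) (x : E3) :
    pot (fun y => f y - g y) x = pot f x - pot g x := by
  unfold pot
  rw [← integral_sub ((hpot f hf).1 x) ((hpot g hg).1 x)]
  congr 1
  funext y
  ring

theorem pot_nonneg {f : E3 → ℝ} (hf : ∀ x, 0 ≤ f x) (x : E3) : 0 ≤ pot f x :=
  integral_nonneg (fun y => div_nonneg (hf y) (norm_nonneg _))

theorem pot_zero (x : E3) : pot (fun _ => (0 : ℝ)) x = 0 := by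
  simp [pot]

theorem pot_meas (hpot : PotStatement) {f : E3 → ℝ} (hf : BC f) : Measurable (pot f) :=
  (hpot f hf).2.2.2.1.continuous.measurable

theorem pot_bdd (hpot : PotStatement) {f : E3 → ℝ} (hf : BC f) : ∃ C : ℝ, ∀ x, |pot f x| ≤ C := by
  obtain ⟨C, hC⟩ := (hpot f hf).2.2.1
  refine ⟨C, fun x => le_trans ?_ (hC x)⟩
  nlinarith [abs_nonneg (pot f x), norm_nonneg x, mul_nonneg (abs_nonneg (pot f x)) (norm_nonneg x)]

/-- The Coulomb form. -/
noncomputable def En (a b : E3 → ℝ) : ℝ := ∫ x, a x * pot b x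

theorem en_int (hpot : PotStatement) {a b : E3 → ℝ} (ha : BC a) (hb : BC b) :
    Integrable (fun x => a x * pot b x) :=
  bc_integrable (bc_mul ha (pot_meas hpot hb) (pot_bdd hpot hb))

theorem en_add_left (hpot : PotStatement) {a b c : E3 → ℝ} (ha : BC a) (hb : BC b) (hc : BC c) :
    En (fun x => a x + b x) c = En a c + En b c := by
  unfold En
  rw [← integral_add (en_int hpot ha hc) (en_int hpot hb hc)]
  congr 1
  funext x
  ring

theorem en_mul_left (c : ℝ) (a b : E3 → ℝ) : En (fun x => c * a x) b = c * En a b := by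
  unfold En
  rw [← integral_const_mul]
  congr 1
  funext x
  ring

theorem en_symm (hsym : SymStatement) {a b : E3 → ℝ} (ha : BC a) (hb : BC b) : En a b = En b a :=
  hsym a b ha hb

/-- The energy of `p a + q b`. -/
theorem en_comb (hpot : PotStatement) (hsym : SymStatement) {a b : E3 → ℝ} (ha : BC a) (hb : BC b)
    (p q : ℝ) :
    En (fun x => p * a x + q * b x) (fun x => p * a x + q * b x) =
      p ^ 2 * En a a + 2 * p * q * En b a + q ^ 2 * En b b := by
  have hpa := bc_const_mul p ha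
  have hqb := bc_const_mul q hb
  have hc := bc_add hpa hqb
  rw [en_add_left hpot hpa hqb hc, en_mul_left, en_mul_left, en_symm hsym ha hc,
    en_symm hsym hb hc, en_add_left hpot hpa hqb ha, en_add_left hpot hpa hqb hb,
    en_mul_left, en_mul_left, en_mul_left, en_mul_left, en_symm hsym ha hb]
  ring

/-- The form is bounded on `L^2(ball)`. -/
theorem en_le (hpot : PotStatement) (hsym : SymStatement) {b : E3 → ℝ} (hb : BC b) {R Lam : ℝ}
    (hR : ∀ x, R < ‖x‖ → b x = 0) (hLam : ∀ x, pot (one R) x ≤ Lam) :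
    En b b ≤ Lam * ∫ x, b x ^ 2 := by
  have hb2 : BC (fun x => b x * b x) := bc_mul hb hb.meas hb.bdd
  have h1 := bc_one R
  have key : ∀ x, b x * pot b x ≤
      1 / 2 * ((b x * b x) * pot (one R) x) + 1 / 2 * (one R x * pot (fun y => b y * b y) x) := by
    intro x
    rcases le_or_gt ‖x‖ R with hx | hx
    · rw [one_in hx, one_mul]
      have e1 : b x * pot b x = ∫ y, b x * (b y / ‖x - y‖) := by
        unfold pot
        rw [integral_const_mul]
      have e2 : 1 / 2 * ((b x * b x) * pot (one R) x) + 1 / 2 * pot (fun y => b y * b y) x =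
          ∫ y, (1 / 2 * (b x * b x) * (one R y / ‖x - y‖) + 1 / 2 * (b y * b y / ‖x - y‖)) := by
        rw [integral_add ((hpot _ h1).1 x |>.const_mul _) ((hpot _ hb2).1 x |>.const_mul _),
          integral_const_mul, integral_const_mul]
        unfold pot
        ring
      rw [e1, e2]
      refine integral_mono ((hpot _ hb).1 x |>.const_mul _)
        (((hpot _ h1).1 x |>.const_mul _).add ((hpot _ hb2).1 x |>.const_mul _)) (fun y => ?_)
      show b x * (b y / ‖x - y‖) ≤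
        1 / 2 * (b x * b x) * (one R y / ‖x - y‖) + 1 / 2 * (b y * b y / ‖x - y‖)
      have hd : 0 ≤ ‖x - y‖⁻¹ := inv_nonneg.2 (norm_nonneg _)
      rcases le_or_gt ‖y‖ R with hy | hy
      · rw [one_in hy]
        have : b x * b y ≤ 1 / 2 * (b x * b x) + 1 / 2 * (b y * b y) := by
          nlinarith [sq_nonneg (b x - b y)]
        have h3 := mul_le_mul_of_nonneg_right this hd
        calc b x * (b y / ‖x - y‖) = b x * b y * ‖x - y‖⁻¹ := by rw [div_eq_mul_inv]; ring
          _ ≤ _ := h3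
          _ = _ := by rw [div_eq_mul_inv, div_eq_mul_inv]; ring
      · rw [one_out hy, hR y hy]
        simp
    · rw [hR x hx, one_out hx]
      simp
  have hint1 : Integrable (fun x => (b x * b x) * pot (one R) x) := en_int hpot hb2 h1
  have hint2 : Integrable (fun x => one R x * pot (fun y => b y * b y) x) := en_int hpot h1 hb2
  have s1 : En b b ≤ ∫ x, (1 / 2 * ((b x * b x) * pot (one R) x) +
      1 / 2 * (one R x * pot (fun y => b y * b y) x)) :=
    integral_mono (en_int hpot hb hb) ((hint1.const_mul _).add (hint2.const_mul _)) key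
  rw [integral_add (hint1.const_mul _) (hint2.const_mul _), integral_const_mul,
    integral_const_mul] at s1
  have s2 : (∫ x, one R x * pot (fun y => b y * b y) x) = ∫ x, (b x * b x) * pot (one R) x :=
    hsym _ _ h1 hb2
  rw [s2] at s1
  have s3 : (∫ x, (b x * b x) * pot (one R) x) ≤ ∫ x, Lam * b x ^ 2 := by
    refine integral_mono hint1 ?_ (fun x => ?_)
    · have := (bc_integrable hb2).const_mul Lam
      refine this.congr (Filter.Eventually.of_forall (fun x => ?_))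
      show Lam * (b x * b x) = Lam * b x ^ 2
      ring
    · show (b x * b x) * pot (one R) x ≤ Lam * b x ^ 2
      nlinarith [hLam x, mul_self_nonneg (b x)]
  rw [integral_const_mul] at s3
  linarith

/-! ### The sup bound -/

theorem int_near : Integrable
    ((Metric.ball (0 : E3) 1).indicator (fun z : E3 => (‖z‖ ^ 2)⁻¹)) := by
  rw [integrable_indicator_iff measurableSet_ball]
  have h := (integrableOn_fun_norm_addHaar (E := E3) (volume : Measure E3)
    (f := fun r : ℝ => (r ^ 2)⁻¹) (r := 1)).2 ?_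
  · exact h
  · have hd : Module.finrank ℝ E3 = 3 := by simp
    rw [hd]
    have hc : IntegrableOn (fun _ : ℝ => (1 : ℝ)) (Ioo 0 1) :=
      integrableOn_const (by simp)
    refine hc.congr_fun (fun y hy => ?_) measurableSet_Ioo
    have : y ≠ 0 := ne_of_gt hy.1
    show (1 : ℝ) = y ^ (3 - 1) • (y ^ 2)⁻¹
    simp [this]

/-- `∫_B |x-y|^{-2} dy` is bounded uniformly in `x`. -/
theorem sq_kernel (R : ℝ) : ∃ Q : ℝ, ∀ x : E3,
    Integrable (fun y : E3 => one R y * (‖x - y‖ ^ 2)⁻¹) ∧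
    ∫ y, one R y * (‖x - y‖ ^ 2)⁻¹ ≤ Q := by
  set F : E3 → ℝ := (Metric.ball (0 : E3) 1).indicator (fun z : E3 => (‖z‖ ^ 2)⁻¹) with hF
  refine ⟨(∫ z, F z) + ∫ y, one R y, fun x => ?_⟩
  have hFx : Integrable (fun y => F (x - y)) := int_near.comp_sub_left x
  have h1 := bc_integrable (bc_one R)
  have hle : ∀ y, one R y * (‖x - y‖ ^ 2)⁻¹ ≤ F (x - y) + one R y := by
    intro y
    by_cases h : x - y ∈ Metric.ball (0 : E3) 1
    · rw [hF, Set.indicator_of_mem h]
      have : 0 ≤ (‖x - y‖ ^ 2)⁻¹ := by positivity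
      nlinarith [one_nonneg R y, one_le_one R y]
    · rw [hF, Set.indicator_of_notMem h, zero_add]
      have h' : 1 ≤ ‖x - y‖ := by simpa using h
      have : (‖x - y‖ ^ 2)⁻¹ ≤ 1 := inv_le_one_of_one_le₀ (one_le_pow₀ h')
      calc one R y * (‖x - y‖ ^ 2)⁻¹ ≤ one R y * 1 :=
            mul_le_mul_of_nonneg_left this (one_nonneg R y)
        _ = _ := mul_one _
  have hmeas : Measurable (fun y : E3 => one R y * (‖x - y‖ ^ 2)⁻¹) := by
    have := (bc_one R).meas
    fun_prop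
  have hint : Integrable (fun y : E3 => one R y * (‖x - y‖ ^ 2)⁻¹) := by
    refine (hFx.add h1).mono' hmeas.aestronglyMeasurable
      (Filter.Eventually.of_forall (fun y => ?_))
    rw [Real.norm_eq_abs, abs_of_nonneg (mul_nonneg (one_nonneg R y) (by positivity))]
    exact hle y
  refine ⟨hint, ?_⟩
  calc (∫ y, one R y * (‖x - y‖ ^ 2)⁻¹) ≤ ∫ y, (F (x - y) + one R y) :=
        integral_mono hint (hFx.add h1) hle
    _ = (∫ y, F (x - y)) + ∫ y, one R y := integral_add hFx h1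
    _ = _ := by rw [integral_sub_left_eq_self]

theorem pot_sup (hpot : PotStatement) {a : E3 → ℝ} (ha : BC a) {R Q : ℝ}
    (hR : ∀ x, R < ‖x‖ → a x = 0)
    (hQ : ∀ x : E3, Integrable (fun y : E3 => one R y * (‖x - y‖ ^ 2)⁻¹) ∧
      ∫ y, one R y * (‖x - y‖ ^ 2)⁻¹ ≤ Q) (x : E3) {δ : ℝ} (hδ : 0 < δ) :
    |pot a x| ≤ 1 / 2 * (δ⁻¹ * ∫ y, a y ^ 2) + 1 / 2 * (δ * Q) := by
  have ha2 : Integrable (fun y => a y ^ 2) := by
    refine (bc_integrable (bc_mul ha ha.meas ha.bdd)).congr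
      (Filter.Eventually.of_forall (fun x => ?_))
    show a x * a x = a x ^ 2
    ring
  have h1 : |pot a x| ≤ ∫ y, |a y / ‖x - y‖| := by
    unfold pot
    exact norm_integral_le_integral_norm (μ := (volume : Measure E3)) (fun y => a y / ‖x - y‖)
  have h2 : (∫ y, |a y / ‖x - y‖|) ≤
      ∫ y, (1 / 2 * δ⁻¹ * a y ^ 2 + 1 / 2 * δ * (one R y * (‖x - y‖ ^ 2)⁻¹)) := by
    refine integral_mono ((hpot a ha).1 x).abs
      ((ha2.const_mul _).add ((hQ x).1.const_mul _)) (fun y => ?_)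
    show |a y / ‖x - y‖| ≤ 1 / 2 * δ⁻¹ * a y ^ 2 + 1 / 2 * δ * (one R y * (‖x - y‖ ^ 2)⁻¹)
    rcases le_or_gt ‖y‖ R with hy | hy
    · rw [one_in hy, one_mul, div_eq_mul_inv, abs_mul, abs_of_nonneg (inv_nonneg.2 (norm_nonneg _)),
        ← inv_pow, ← sq_abs (a y)]
      set u := |a y|
      set v := ‖x - y‖⁻¹
      have hd : δ⁻¹ * δ = 1 := inv_mul_cancel₀ hδ.ne'
      have hd0 : 0 < δ⁻¹ := inv_pos.2 hδ
      have : 0 ≤ δ⁻¹ * (u - δ * v) ^ 2 := by positivity
      have e : δ⁻¹ * (u - δ * v) ^ 2 = δ⁻¹ * u ^ 2 - 2 * (δ⁻¹ * δ) * u * v +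
        (δ⁻¹ * δ) * δ * v ^ 2 := by ring
      rw [e, hd] at this
      linarith
    · rw [one_out hy, hR y hy]
      simp
  rw [integral_add (ha2.const_mul _) ((hQ x).1.const_mul _), integral_const_mul,
    integral_const_mul] at h2
  have h3 : 1 / 2 * δ * (∫ y, one R y * (‖x - y‖ ^ 2)⁻¹) ≤ 1 / 2 * δ * Q :=
    mul_le_mul_of_nonneg_left (hQ x).2 (by positivity)
  calc |pot a x| ≤ _ := h1.trans h2
    _ ≤ 1 / 2 * δ⁻¹ * (∫ y, a y ^ 2) + 1 / 2 * δ * Q := by linarith
    _ = _ := by ring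

/-! ### The nonlinearity -/

/-- `g(s) = (s_+/γ)^{3/2}`. -/
noncomputable def gf (γ s : ℝ) : ℝ := (max s 0 / γ) ^ (3 / 2 : ℝ)

theorem gf_nonneg {γ : ℝ} (hγ : 0 < γ) (s : ℝ) : 0 ≤ gf γ s :=
  Real.rpow_nonneg (div_nonneg (le_max_right _ _) hγ.le) _

theorem gf_mono {γ : ℝ} (hγ : 0 < γ) : Monotone (gf γ) := by
  intro s t h
  apply Real.rpow_le_rpow (div_nonneg (le_max_right _ _) hγ.le) _ (by norm_num)
  exact div_le_div_of_nonneg_right (max_le_max h le_rfl) hγ.le

theorem gf_zero {γ s : ℝ} (hs : s ≤ 0) : gf γ s = 0 := by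
  unfold gf
  rw [max_eq_right hs, zero_div, Real.zero_rpow (by norm_num)]

theorem gf_cont (γ : ℝ) : Continuous (gf γ) := by
  unfold gf
  exact Continuous.rpow_const (by fun_prop) (fun x => Or.inr (by norm_num))

theorem rpow_32 {a : ℝ} (ha : 0 ≤ a) : a ^ (3 / 2 : ℝ) = Real.sqrt a ^ 3 := by
  rw [Real.sqrt_eq_rpow, ← Real.rpow_natCast, ← Real.rpow_mul ha]
  norm_num

theorem gf_lip {γ T : ℝ} (hγ : 0 < γ) (hT : 0 < T) : ∃ L : ℝ, 0 < L ∧ ∀ s t, s ≤ T → t ≤ T →
    |gf γ s - gf γ t| ≤ L * |s - t| := by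
  refine ⟨2 * Real.sqrt (T / γ) / γ, by positivity, fun s t hs ht => ?_⟩
  unfold gf
  set a := max s 0 / γ with ha
  set b := max t 0 / γ with hb
  have ha0 : 0 ≤ a := div_nonneg (le_max_right _ _) hγ.le
  have hb0 : 0 ≤ b := div_nonneg (le_max_right _ _) hγ.le
  have haT : a ≤ T / γ := div_le_div_of_nonneg_right (max_le hs hT.le) hγ.le
  have hbT : b ≤ T / γ := div_le_div_of_nonneg_right (max_le ht hT.le) hγ.le
  have hab : |a - b| ≤ |s - t| / γ := by
    rw [ha, hb, ← sub_div, abs_div, abs_of_pos hγ]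
    exact div_le_div_of_nonneg_right (abs_max_sub_max_le_abs _ _ _) hγ.le
  rw [rpow_32 ha0, rpow_32 hb0]
  set x := Real.sqrt a
  set y := Real.sqrt b
  set z := Real.sqrt (T / γ)
  have hx0 : 0 ≤ x := Real.sqrt_nonneg _
  have hy0 : 0 ≤ y := Real.sqrt_nonneg _
  have hxz : x ≤ z := Real.sqrt_le_sqrt haT
  have hyz : y ≤ z := Real.sqrt_le_sqrt hbT
  have hxa : x ^ 2 = a := Real.sq_sqrt ha0
  have hyb : y ^ 2 = b := Real.sq_sqrt hb0
  have e1 : |x ^ 3 - y ^ 3| = |x - y| * (x ^ 2 + x * y + y ^ 2) := by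
    rw [← abs_of_nonneg (show 0 ≤ x ^ 2 + x * y + y ^ 2 by positivity), ← abs_mul]
    congr 1
    ring
  have e2 : |a - b| = |x - y| * (x + y) := by
    rw [← hxa, ← hyb, ← abs_of_nonneg (show 0 ≤ x + y by positivity), ← abs_mul]
    congr 1
    ring
  have h3 : x ^ 2 + x * y + y ^ 2 ≤ 2 * z * (x + y) := by
    nlinarith [mul_nonneg hx0 hy0, mul_nonneg hx0 (sub_nonneg.2 hxz), mul_nonneg hy0 (sub_nonneg.2 hyz),
      mul_nonneg hx0 (sub_nonneg.2 hyz), mul_nonneg hy0 (sub_nonneg.2 hxz)]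
  calc |x ^ 3 - y ^ 3| = |x - y| * (x ^ 2 + x * y + y ^ 2) := e1
    _ ≤ |x - y| * (2 * z * (x + y)) := mul_le_mul_of_nonneg_left h3 (abs_nonneg _)
    _ = 2 * z * |a - b| := by rw [e2]; ring
    _ ≤ 2 * z * (|s - t| / γ) := mul_le_mul_of_nonneg_left hab (by positivity)
    _ = 2 * z / γ * |s - t| := by ring

theorem gf_coco {γ T L : ℝ} (hγ : 0 < γ)
    (hL : ∀ s t, s ≤ T → t ≤ T → |gf γ s - gf γ t| ≤ L * |s - t|) {s t : ℝ}
    (hs : s ≤ T) (ht : t ≤ T) :
    (gf γ s - gf γ t) ^ 2 ≤ L * ((gf γ s - gf γ t) * (s - t)) := by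
  have h0 : 0 ≤ (gf γ s - gf γ t) * (s - t) := by
    rcases le_total s t with h | h
    · exact mul_nonneg_of_nonpos_of_nonpos (sub_nonpos.2 (gf_mono hγ h)) (sub_nonpos.2 h)
    · exact mul_nonneg (sub_nonneg.2 (gf_mono hγ h)) (sub_nonneg.2 h)
  have h1 : (gf γ s - gf γ t) * (s - t) = |gf γ s - gf γ t| * |s - t| := by
    rw [← abs_mul, abs_of_nonneg h0]
  rw [h1, ← sq_abs]
  have := mul_le_mul_of_nonneg_left (hL s t hs ht) (abs_nonneg (gf γ s - gf γ t))
  nlinarith

end Pool.Agent.Lib.MP_405077_mp.H40
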