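import Pool.Agent.Lib.MP_405077_mp.H40.Iter

/-!
MP_405077_mp, module EXIST (helper40): existence of the minimiser for smeared nuclei.
-/

set_option autoImplicit false

open MeasureTheory Set Filter Topology

namespace Pool.Agent.Lib.MP_405077_mp.H40

theorem exists_tf (hpot : PotStatement) (hsym : SymStatement) (hpos : PosStatement)
    (hadm : AdmStatement) {γ μ : ℝ} {m : E3 → ℝ} (hγ : 0 < γ) (hμ : 0 < μ) (hm : BC m)
    (hm0 : ∀ x, 0 ≤ m x) :
    ∃ ρ : E3 → ℝ, BC ρ ∧ (∀ x, 0 ≤ ρ x) ∧ ∀ x, ρ x = gf γ (pot m x - pot ρ x - μ) := by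
  obtain ⟨C0, hC0⟩ := (hpot m hm).2.2.1
  set C := max C0 1 with hC
  have hCpos : 0 < C := lt_of_lt_of_le one_pos (le_max_right _ _)
  have hV0 : ∀ x, 0 ≤ pot m x := fun x => pot_nonneg hm0 x
  have hVC : ∀ x, pot m x * (1 + ‖x‖) ≤ C := fun x => by
    have := hC0 x
    rw [abs_of_nonneg (hV0 x)] at this
    exact this.trans (le_max_left _ _)
  obtain ⟨L, hL0, hL⟩ := gf_lip hγ hCpos
  obtain ⟨Lam, hLam⟩ := pot_bdd hpot (bc_one (C / μ))
  have hLam0 : 0 ≤ Lam := (abs_nonneg _).trans (hLam 0)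
  have hLL : 0 ≤ Lam * L := mul_nonneg hLam0 hL0.le
  have hden : 0 < 2 + Lam * L := by linarith
  have D : Dat γ μ (1 / (2 + Lam * L)) C (C / μ) L Lam (pot m) := by
    refine ⟨hγ, by positivity, ?_, hCpos, hL0, pot_meas hpot hm, fun x => ?_, fun x hx => ?_, hL,
      fun x => (le_abs_self _).trans (hLam x), ?_⟩
    · rw [div_lt_one hden]; linarith
    · have h1 := hVC x
      have h2 := hV0 x
      nlinarith [norm_nonneg x, mul_nonneg h2 (norm_nonneg x)]
    · by_contra hcon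
      rw [not_le] at hcon
      have h1 := hVC x
      have h2 := hV0 x
      have h3 : C < μ * ‖x‖ := by
        rw [div_lt_iff₀ hμ] at hx; linarith
      nlinarith [mul_nonneg (sub_nonneg.2 hcon.le) (norm_nonneg x)]
    · rw [le_sub_iff_add_le]
      have : 1 / (2 + Lam * L) * (Lam * L) + 1 / (2 + Lam * L) =
          (1 + Lam * L) / (2 + Lam * L) := by ring
      rw [this, div_le_one hden]
      linarith
  exact exists_core hpot hsym hadm hpos D

/-! ### Minimality -/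

theorem rpow_add_le {a b : ℝ} (ha : 0 ≤ a) (hb : 0 ≤ b) :
    (a + b) ^ (5 / 3 : ℝ) ≤ 2 ^ (5 / 3 : ℝ) * (a ^ (5 / 3 : ℝ) + b ^ (5 / 3 : ℝ)) := by
  have h1 : a + b ≤ 2 * max a b := by
    have := le_max_left a b
    have := le_max_right a b
    linarith
  have hmax : 0 ≤ max a b := ha.trans (le_max_left _ _)
  calc (a + b) ^ (5 / 3 : ℝ) ≤ (2 * max a b) ^ (5 / 3 : ℝ) :=
        Real.rpow_le_rpow (add_nonneg ha hb) h1 (by norm_num)
    _ = 2 ^ (5 / 3 : ℝ) * (max a b) ^ (5 / 3 : ℝ) := Real.mul_rpow (by norm_num) hmax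
    _ ≤ _ := by
      refine mul_le_mul_of_nonneg_left ?_ (by positivity)
      have ha' : 0 ≤ a ^ (5 / 3 : ℝ) := Real.rpow_nonneg ha _
      have hb' : 0 ≤ b ^ (5 / 3 : ℝ) := Real.rpow_nonneg hb _
      rcases le_total a b with h | h
      · rw [max_eq_right h]; linarith
      · rw [max_eq_left h]; linarith

theorem adm_add {σ ρ : E3 → ℝ} (hσ : Adm σ) (hρ : Adm ρ) : Adm (fun x => σ x + ρ x) := by
  refine ⟨fun x => add_nonneg (hσ.nonneg x) (hρ.nonneg x), hσ.int.add hρ.int, ?_⟩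
  have hdom := (hσ.int53.add hρ.int53).const_mul (2 ^ (5 / 3 : ℝ))
  refine hdom.mono' ?_ (Filter.Eventually.of_forall (fun x => ?_))
  · have h : AEStronglyMeasurable (fun x => σ x + ρ x) (volume : Measure E3) :=
      hσ.int.aestronglyMeasurable.add hρ.int.aestronglyMeasurable
    exact (h.aemeasurable.pow_const _).aestronglyMeasurable
  · rw [Real.norm_eq_abs, abs_of_nonneg (Real.rpow_nonneg
      (add_nonneg (hσ.nonneg x) (hρ.nonneg x)) _)]
    exact rpow_add_le (hσ.nonneg x) (hρ.nonneg x)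

/-- Product integrability of the mixed Coulomb integrand. -/
theorem prod_int (hadm : AdmStatement) {σ ρ : E3 → ℝ} (hσ : Adm σ) (hρ : Adm ρ)
    {f g : E3 → ℝ} (hf : AEStronglyMeasurable f (volume : Measure E3))
    (hg : AEStronglyMeasurable g (volume : Measure E3))
    (hfb : ∀ x, |f x| ≤ σ x + ρ x) (hgb : ∀ x, |g x| ≤ σ x + ρ x) :
    Integrable (fun p : E3 × E3 => f p.1 * g p.2 / ‖p.1 - p.2‖) (volume.prod volume) := by
  have h := (hadm _ (adm_add hσ hρ)).2.2.2
  refine h.mono' ?_ (Filter.Eventually.of_forall (fun p => ?_))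
  · have h1 : AEStronglyMeasurable (fun p : E3 × E3 => f p.1) (volume.prod volume) := hf.comp_fst
    have h2 : AEStronglyMeasurable (fun p : E3 × E3 => g p.2) (volume.prod volume) := hg.comp_snd
    have h3 : AEStronglyMeasurable (fun p : E3 × E3 => ‖p.1 - p.2‖) (volume.prod volume) :=
      Measurable.aestronglyMeasurable (by fun_prop)
    exact ((h1.mul h2).aemeasurable.div h3.aemeasurable).aestronglyMeasurable
  · rw [Real.norm_eq_abs, abs_div, abs_mul, abs_of_nonneg (norm_nonneg (p.1 - p.2))]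
    exact div_le_div_of_nonneg_right
      (mul_le_mul (hfb _) (hgb _) (abs_nonneg _)
        ((abs_nonneg _).trans (hfb _))) (norm_nonneg _)

/-- Expansion of the energy of a difference. -/
theorem cross (hadm : AdmStatement) (hpos : PosStatement) {σ ρ : E3 → ℝ} (hσ : Adm σ)
    (hρ : Adm ρ) :
    Integrable (fun x => σ x * pot ρ x) ∧
      ∫ x, σ x * pot ρ x ≤ dir σ + dir ρ := by
  have a1 : ∀ x, |σ x| ≤ σ x + ρ x := fun x => by
    rw [abs_of_nonneg (hσ.nonneg x)]; linarith [hρ.nonneg x]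
  have a2 : ∀ x, |ρ x| ≤ σ x + ρ x := fun x => by
    rw [abs_of_nonneg (hρ.nonneg x)]; linarith [hσ.nonneg x]
  have a3 : ∀ x, |σ x - ρ x| ≤ σ x + ρ x := fun x => by
    rw [abs_le]; constructor <;> linarith [hσ.nonneg x, hρ.nonneg x]
  have mσ := hσ.int.aestronglyMeasurable
  have mρ := hρ.int.aestronglyMeasurable
  have p1 := prod_int hadm hσ hρ mσ mρ a1 a2
  have p2 := prod_int hadm hσ hρ mρ mσ a2 a1
  have p3 := prod_int hadm hσ hρ (mσ.sub mρ) (mσ.sub mρ) a3 a3
  have e1 : ∀ (f g : E3 → ℝ), (fun x => ∫ y, f x * g y / ‖x - y‖) = fun x => f x * pot g x := by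
    intro f g
    funext x
    unfold pot
    rw [← integral_const_mul]
    congr 1
    funext y
    ring
  have i1 : Integrable (fun x => σ x * pot ρ x) := by
    have := p1.integral_prod_left
    rwa [e1] at this
  have i2 : Integrable (fun x => ρ x * pot σ x) := by
    have := p2.integral_prod_left
    rwa [e1] at this
  have i3 := (hadm σ hσ).2.2.1
  have i4 := (hadm ρ hρ).2.2.1
  have sw : (∫ x, ρ x * pot σ x) = ∫ x, σ x * pot ρ x := by
    have h := integral_integral_swap (f := fun x y => ρ x * σ y / ‖x - y‖) p2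
    rw [e1 ρ σ] at h
    rw [h]
    congr 1
    funext y
    have : (fun x => ρ x * σ y / ‖x - y‖) = fun x => σ y * (ρ x / ‖y - x‖) := by
      funext x
      rw [norm_sub_rev]
      ring
    rw [this, integral_const_mul]
    rfl
  have hP := hpos (fun x => σ x - ρ x) (hσ.int.sub hρ.int) p3
  have e2 : ∀ x, pot (fun y => σ y - ρ y) x = pot σ x - pot ρ x := by
    intro x
    unfold pot
    rw [← integral_sub ((hadm σ hσ).1 x) ((hadm ρ hρ).1 x)]
    congr 1
    funext y
    ring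
  have e3 : (fun x => (σ x - ρ x) * pot (fun y => σ y - ρ y) x) =
      fun x => ((σ x * pot σ x + ρ x * pot ρ x) - (σ x * pot ρ x + ρ x * pot σ x)) := by
    funext x
    rw [e2]
    ring
  have j1 : Integrable (fun x => σ x * pot σ x + ρ x * pot ρ x) := i3.add i4
  have j2 : Integrable (fun x => σ x * pot ρ x + ρ x * pot σ x) := i1.add i2
  rw [e3, integral_sub j1 j2, integral_add i3 i4, integral_add i1 i2, sw] at hP
  refine ⟨i1, ?_⟩
  unfold dir
  linarith

/-- The pointwise convexity inequality. -/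
theorem pointwise {γ w s r : ℝ} (hγ : 0 < γ) (hs : 0 ≤ s) (hr : r = gf γ w) :
    w * (s - r) ≤ γ * (3 / 5) * (s ^ (5 / 3 : ℝ) - r ^ (5 / 3 : ℝ)) := by
  rcases le_or_gt w 0 with hw | hw
  · have hr0 : r = 0 := by rw [hr]; exact gf_zero hw
    rw [hr0, Real.zero_rpow (by norm_num), sub_zero, sub_zero]
    have h1 : w * s ≤ 0 := mul_nonpos_of_nonpos_of_nonneg hw hs
    have h2 : 0 ≤ γ * (3 / 5) * s ^ (5 / 3 : ℝ) := by
      have := Real.rpow_nonneg hs (5 / 3)
      positivity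
    linarith
  · set v := w / γ with hv
    have hv0 : 0 < v := div_pos hw hγ
    have hwv : w = γ * v := by rw [hv]; field_simp
    have hrv : r = v ^ (3 / 2 : ℝ) := by
      rw [hr]; unfold gf; rw [max_eq_left hw.le]
    have e1 : r ^ (5 / 3 : ℝ) = v ^ (5 / 2 : ℝ) := by
      rw [hrv, ← Real.rpow_mul hv0.le]; norm_num
    have e2 : v * r = v ^ (5 / 2 : ℝ) := by
      rw [hrv]
      nth_rewrite 1 [← Real.rpow_one v]
      rw [← Real.rpow_add hv0]; norm_num
    have hconj : (5 / 3 : ℝ).HolderConjugate (5 / 2) := by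
      rw [Real.holderConjugate_iff]; norm_num
    have y := Real.young_inequality_of_nonneg hs hv0.le hconj
    rw [hwv, e1]
    have h3 : v * (s - r) ≤ 3 / 5 * (s ^ (5 / 3 : ℝ) - v ^ (5 / 2 : ℝ)) := by
      have : v * (s - r) = s * v - v ^ (5 / 2 : ℝ) := by rw [← e2]; ring
      rw [this]
      have h4 : s ^ (5 / 3 : ℝ) / (5 / 3) + v ^ (5 / 2 : ℝ) / (5 / 2) =
        3 / 5 * s ^ (5 / 3 : ℝ) + 2 / 5 * v ^ (5 / 2 : ℝ) := by ring
      linarith
    calc γ * v * (s - r) = γ * (v * (s - r)) := by ring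
      _ ≤ γ * (3 / 5 * (s ^ (5 / 3 : ℝ) - v ^ (5 / 2 : ℝ))) := mul_le_mul_of_nonneg_left h3 hγ.le
      _ = _ := by ring

theorem minimal (hpot : PotStatement) (hpos : PosStatement)
    (hadm : AdmStatement) {γ μ : ℝ} {m ρ : E3 → ℝ} (hγ : 0 < γ) (hm : BC m)
    (hρ : BC ρ) (hρ0 : ∀ x, 0 ≤ ρ x) (heq : ∀ x, ρ x = gf γ (pot m x - pot ρ x - μ))
    {σ : E3 → ℝ} (hσ : Adm σ) :
    fun0 γ 1 μ (pot m) ρ ≤ fun0 γ 1 μ (pot m) σ := by
  have hρA := adm_of_bc hρ hρ0
  obtain ⟨i1, hc⟩ := cross hadm hpos hσ hρA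
  obtain ⟨CV, hCV⟩ := pot_bdd hpot hm
  have mV := pot_meas hpot hm
  have iVσ : Integrable (fun x => pot m x * σ x) :=
    hσ.int.bdd_mul mV.aestronglyMeasurable (Filter.Eventually.of_forall hCV)
  have iVρ : Integrable (fun x => pot m x * ρ x) :=
    hρA.int.bdd_mul mV.aestronglyMeasurable (Filter.Eventually.of_forall hCV)
  have i4 := (hadm ρ hρA).2.2.1
  have hdir : dir ρ = 1 / 2 * ∫ x, ρ x * pot ρ x := rfl
  have key : (∫ x, ((pot m x * σ x - pot m x * ρ x) - (σ x * pot ρ x - ρ x * pot ρ x) -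
      (μ * σ x - μ * ρ x))) ≤
      ∫ x, (γ * (3 / 5) * σ x ^ (5 / 3 : ℝ) - γ * (3 / 5) * ρ x ^ (5 / 3 : ℝ)) := by
    refine integral_mono (((iVσ.sub iVρ).sub (i1.sub i4)).sub
      ((hσ.int.const_mul μ).sub (hρA.int.const_mul μ)))
      ((hσ.int53.const_mul _).sub (hρA.int53.const_mul _)) (fun x => ?_)
    have h := pointwise hγ (hσ.nonneg x) (heq x)
    show (pot m x * σ x - pot m x * ρ x) - (σ x * pot ρ x - ρ x * pot ρ x) -
      (μ * σ x - μ * ρ x) ≤ γ * (3 / 5) * σ x ^ (5 / 3 : ℝ) - γ * (3 / 5) * ρ x ^ (5 / 3 : ℝ)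
    linarith
  have j1 : Integrable (fun x => pot m x * σ x - pot m x * ρ x) := iVσ.sub iVρ
  have j2 : Integrable (fun x => σ x * pot ρ x - ρ x * pot ρ x) := i1.sub i4
  have j3 : Integrable (fun x => μ * σ x - μ * ρ x) :=
    (hσ.int.const_mul μ).sub (hρA.int.const_mul μ)
  have j4 : Integrable (fun x => pot m x * σ x - pot m x * ρ x -
    (σ x * pot ρ x - ρ x * pot ρ x)) := j1.sub j2
  rw [integral_sub j4 j3, integral_sub j1 j2, integral_sub iVσ iVρ, integral_sub i1 i4,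
    integral_sub (hσ.int.const_mul μ) (hρA.int.const_mul μ),
    integral_sub (hσ.int53.const_mul _) (hρA.int53.const_mul _), integral_const_mul,
    integral_const_mul, integral_const_mul, integral_const_mul] at key
  unfold fun0 kin
  linarith

/-- Module EXIST. -/
theorem exist (hpot : PotStatement) (hsym : SymStatement) (hpos : PosStatement)
    (hadm : AdmStatement) : ExistStatement := by
  intro γ μ m hγ hμ hm hm0
  obtain ⟨ρ, hρ, hρ0, heq⟩ := exists_tf hpot hsym hpos hadm hγ hμ hm hm0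
  exact ⟨ρ, ⟨hρ, heq⟩, fun σ hσ => minimal hpot hpos hadm hγ hm hρ hρ0 heq hσ⟩

end Pool.Agent.Lib.MP_405077_mp.H40
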