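import Pool.Agent.Lib.MP_405077_mp.H40.Basic

/-!
MP_405077_mp, module EXIST (helper40): the contraction in the Coulomb norm.
-/

set_option autoImplicit false

open MeasureTheory Set Filter Topology

namespace Pool.Agent.Lib.MP_405077_mp.H40

theorem bc_rpow {a : E3 → ℝ} (ha : BC a) (h0 : ∀ x, 0 ≤ a x) {p : ℝ} (hp : 0 < p) :
    BC (fun x => a x ^ p) := by
  obtain ⟨M, hM⟩ := ha.bdd
  obtain ⟨r, hr⟩ := ha.supp
  refine ⟨ha.meas.pow_const _, ⟨M ^ p, fun x => ?_⟩, ⟨r, fun x hx => ?_⟩⟩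
  · rw [abs_of_nonneg (Real.rpow_nonneg (h0 x) _)]
    exact Real.rpow_le_rpow (h0 x) ((le_abs_self _).trans (hM x)) hp.le
  · show a x ^ p = 0
    rw [hr x hx, Real.zero_rpow hp.ne']

theorem adm_of_bc {a : E3 → ℝ} (ha : BC a) (h0 : ∀ x, 0 ≤ a x) : Adm a :=
  ⟨h0, bc_integrable ha, bc_integrable (bc_rpow ha h0 (by norm_num))⟩

theorem pos_bc (hadm : AdmStatement) (hpos : PosStatement) {a : E3 → ℝ} (ha : BC a) :
    0 ≤ En a a := by
  refine hpos a (bc_integrable ha) ?_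
  have habs : BC (fun x => |a x|) :=
    bc_dom ha ha.meas.abs 1 zero_le_one (fun x => by rw [abs_abs, one_mul])
  have h := (hadm _ (adm_of_bc habs (fun x => abs_nonneg _))).2.2.2
  have hm := ha.meas
  refine h.mono' (Measurable.aestronglyMeasurable (by fun_prop))
    (Filter.Eventually.of_forall (fun p => ?_))
  rw [Real.norm_eq_abs, abs_div, abs_mul, abs_of_nonneg (norm_nonneg (p.1 - p.2))]

/-- The iteration. -/
noncomputable def it (γ μ t : ℝ) (V : E3 → ℝ) : ℕ → E3 → ℝ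
  | 0 => fun _ => 0
  | n + 1 => fun x => (1 - t) * it γ μ t V n x + t * gf γ (V x - pot (it γ μ t V n) x - μ)

/-- Standing hypotheses for the iteration. -/
structure Dat (γ μ t T R L Lam : ℝ) (V : E3 → ℝ) : Prop where
  γ0 : 0 < γ
  t0 : 0 < t
  t1 : t < 1
  T0 : 0 < T
  L0 : 0 < L
  meas : Measurable V
  le : ∀ x, V x - μ ≤ T
  out : ∀ x, R < ‖x‖ → V x ≤ μ
  lip : ∀ s s', s ≤ T → s' ≤ T → |gf γ s - gf γ s'| ≤ L * |s - s'|
  lam : ∀ x, pot (one R) x ≤ Lam
  small : t * (Lam * L) ≤ 1 - t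

variable {γ μ t T R L Lam : ℝ} {V : E3 → ℝ}

theorem gf_out {ρ : E3 → ℝ} (hρ : ∀ x, 0 ≤ ρ x) (D : Dat γ μ t T R L Lam V) {x : E3}
    (hx : R < ‖x‖) : gf γ (V x - pot ρ x - μ) = 0 :=
  gf_zero (by linarith [D.out x hx, pot_nonneg hρ x])

theorem w_le {ρ : E3 → ℝ} (hρ : ∀ x, 0 ≤ ρ x) (D : Dat γ μ t T R L Lam V) (x : E3) :
    V x - pot ρ x - μ ≤ T := by
  linarith [D.le x, pot_nonneg hρ x]

theorem gf_bc (hpot : PotStatement) {ρ : E3 → ℝ} (hbc : BC ρ) (hρ : ∀ x, 0 ≤ ρ x)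
    (D : Dat γ μ t T R L Lam V) : BC (fun x => gf γ (V x - pot ρ x - μ)) := by
  refine ⟨(gf_cont γ).measurable.comp ((D.meas.sub (pot_meas hpot hbc)).sub_const μ),
    ⟨gf γ T, fun x => ?_⟩, ⟨R, fun x hx => gf_out hρ D hx⟩⟩
  rw [abs_of_nonneg (gf_nonneg D.γ0 _)]
  exact gf_mono D.γ0 (w_le hρ D x)

theorem it_facts (hpot : PotStatement) (D : Dat γ μ t T R L Lam V) (n : ℕ) :
    BC (it γ μ t V n) ∧ (∀ x, 0 ≤ it γ μ t V n x) ∧ (∀ x, it γ μ t V n x ≤ gf γ T) ∧
      ∀ x, R < ‖x‖ → it γ μ t V n x = 0 := by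
  induction n with
  | zero =>
    exact ⟨bc_zero, fun x => le_rfl, fun x => gf_nonneg D.γ0 _, fun x _ => rfl⟩
  | succ n ih =>
    obtain ⟨h1, h2, h3, h4⟩ := ih
    have ht0 := D.t0
    have ht1 := D.t1
    refine ⟨bc_add (bc_const_mul _ h1) (bc_const_mul _ (gf_bc hpot h1 h2 D)), fun x => ?_,
      fun x => ?_, fun x hx => ?_⟩
    · show 0 ≤ (1 - t) * it γ μ t V n x + t * gf γ (V x - pot (it γ μ t V n) x - μ)
      have := gf_nonneg D.γ0 (V x - pot (it γ μ t V n) x - μ)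
      have := h2 x
      have : 0 ≤ 1 - t := by linarith
      positivity
    · show (1 - t) * it γ μ t V n x + t * gf γ (V x - pot (it γ μ t V n) x - μ) ≤ gf γ T
      have e1 := gf_mono D.γ0 (w_le h2 D x)
      have e2 := h3 x
      nlinarith
    · show (1 - t) * it γ μ t V n x + t * gf γ (V x - pot (it γ μ t V n) x - μ) = 0
      rw [h4 x hx, gf_out h2 D hx]
      ring

/-- The increments. -/
noncomputable def ai (γ μ t : ℝ) (V : E3 → ℝ) (n : ℕ) (x : E3) : ℝ :=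
  it γ μ t V (n + 1) x - it γ μ t V n x

/-- The increments of the nonlinear term. -/
noncomputable def bi (γ μ t : ℝ) (V : E3 → ℝ) (n : ℕ) (x : E3) : ℝ :=
  gf γ (V x - pot (it γ μ t V (n + 1)) x - μ) - gf γ (V x - pot (it γ μ t V n) x - μ)

theorem ai_bc (hpot : PotStatement) (D : Dat γ μ t T R L Lam V) (n : ℕ) :
    BC (ai γ μ t V n) :=
  bc_sub (it_facts hpot D (n + 1)).1 (it_facts hpot D n).1

theorem bi_bc (hpot : PotStatement) (D : Dat γ μ t T R L Lam V) (n : ℕ) :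
    BC (bi γ μ t V n) :=
  bc_sub (gf_bc hpot (it_facts hpot D (n + 1)).1 (it_facts hpot D (n + 1)).2.1 D)
    (gf_bc hpot (it_facts hpot D n).1 (it_facts hpot D n).2.1 D)

theorem ai_out (hpot : PotStatement) (D : Dat γ μ t T R L Lam V) (n : ℕ) (x : E3)
    (hx : R < ‖x‖) : ai γ μ t V n x = 0 := by
  unfold ai
  rw [(it_facts hpot D (n + 1)).2.2.2 x hx, (it_facts hpot D n).2.2.2 x hx, sub_zero]

theorem bi_out (hpot : PotStatement) (D : Dat γ μ t T R L Lam V) (n : ℕ) (x : E3)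
    (hx : R < ‖x‖) : bi γ μ t V n x = 0 := by
  unfold bi
  rw [gf_out (it_facts hpot D (n + 1)).2.1 D hx, gf_out (it_facts hpot D n).2.1 D hx, sub_zero]

theorem ai_succ (n : ℕ) (x : E3) :
    ai γ μ t V (n + 1) x = (1 - t) * ai γ μ t V n x + t * bi γ μ t V n x := by
  unfold ai bi
  show ((1 - t) * it γ μ t V (n + 1) x + t * gf γ (V x - pot (it γ μ t V (n + 1)) x - μ)) -
    ((1 - t) * it γ μ t V n x + t * gf γ (V x - pot (it γ μ t V n) x - μ)) = _
  ring

theorem w_diff (hpot : PotStatement) (D : Dat γ μ t T R L Lam V) (n : ℕ) (x : E3) :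
    (V x - pot (it γ μ t V (n + 1)) x - μ) - (V x - pot (it γ μ t V n) x - μ) =
      - pot (ai γ μ t V n) x := by
  have := pot_sub hpot (it_facts hpot D (n + 1)).1 (it_facts hpot D n).1 x
  have e : pot (ai γ μ t V n) x = pot (it γ μ t V (n + 1)) x - pot (it γ μ t V n) x := this
  rw [e]
  ring

theorem bi_abs (hpot : PotStatement) (D : Dat γ μ t T R L Lam V) (n : ℕ) (x : E3) :
    |bi γ μ t V n x| ≤ L * |pot (ai γ μ t V n) x| := by
  have h := D.lip _ _ (w_le (it_facts hpot D (n + 1)).2.1 D x) (w_le (it_facts hpot D n).2.1 D x)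
  rw [w_diff hpot D n x, abs_neg] at h
  exact h

theorem bi_coco (hpot : PotStatement) (D : Dat γ μ t T R L Lam V) (n : ℕ) (x : E3) :
    bi γ μ t V n x ^ 2 ≤ L * (bi γ μ t V n x * (- pot (ai γ μ t V n) x)) := by
  have h := gf_coco D.γ0 D.lip (w_le (it_facts hpot D (n + 1)).2.1 D x)
    (w_le (it_facts hpot D n).2.1 D x)
  rw [w_diff hpot D n x] at h
  exact h

theorem sq_int {a : E3 → ℝ} (ha : BC a) : Integrable (fun x => a x ^ 2) := by
  refine (bc_integrable (bc_mul ha ha.meas ha.bdd)).congr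
    (Filter.Eventually.of_forall (fun x => ?_))
  show a x * a x = a x ^ 2
  ring

/-- The energy step. -/
theorem energy_step (hpot : PotStatement) (hsym : SymStatement)
    (D : Dat γ μ t T R L Lam V) (n : ℕ) :
    En (ai γ μ t V (n + 1)) (ai γ μ t V (n + 1)) + t * (1 - t) / L * ∫ x, bi γ μ t V n x ^ 2 ≤
      (1 - t) ^ 2 * En (ai γ μ t V n) (ai γ μ t V n) := by
  have ha := ai_bc hpot D n
  have hb := bi_bc hpot D n
  have e : ai γ μ t V (n + 1) = fun x => (1 - t) * ai γ μ t V n x + t * bi γ μ t V n x := by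
    funext x; exact ai_succ n x
  rw [e, en_comb hpot hsym ha hb]
  have h1 : (∫ x, bi γ μ t V n x ^ 2) ≤ L * (- En (bi γ μ t V n) (ai γ μ t V n)) := by
    have : L * (- En (bi γ μ t V n) (ai γ μ t V n)) =
        ∫ x, L * (- (bi γ μ t V n x * pot (ai γ μ t V n) x)) := by
      rw [integral_const_mul, integral_neg]
      rfl
    rw [this]
    refine integral_mono (sq_int hb) ((en_int hpot hb ha).neg.const_mul L) (fun x => ?_)
    have := bi_coco hpot D n x
    show bi γ μ t V n x ^ 2 ≤ L * (- (bi γ μ t V n x * pot (ai γ μ t V n) x))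
    linarith
  have h2 := en_le hpot hsym hb (bi_out hpot D n) D.lam
  set B := ∫ x, bi γ μ t V n x ^ 2 with hB
  have hB0 : 0 ≤ B := integral_nonneg (fun x => sq_nonneg _)
  set Eba := En (bi γ μ t V n) (ai γ μ t V n)
  set Ebb := En (bi γ μ t V n) (bi γ μ t V n)
  have hL := D.L0
  have ht0 := D.t0
  have ht1 : 0 < 1 - t := by linarith [D.t1]
  have h3 : B / L ≤ - Eba := by
    rw [div_le_iff₀ hL]; linarith
  have h4 : t * Lam ≤ (1 - t) / L := by
    rw [le_div_iff₀ hL]; linarith [D.small]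
  have h5 : t ^ 2 * Ebb ≤ t * ((1 - t) / L) * B := by
    calc t ^ 2 * Ebb ≤ t ^ 2 * (Lam * B) := mul_le_mul_of_nonneg_left h2 (by positivity)
      _ = t * (t * Lam) * B := by ring
      _ ≤ t * ((1 - t) / L) * B :=
        mul_le_mul_of_nonneg_right (mul_le_mul_of_nonneg_left h4 ht0.le) hB0
  have h6 : 2 * (1 - t) * t * Eba ≤ - (2 * (1 - t) * t * (B / L)) := by
    have := mul_le_mul_of_nonneg_left h3 (show 0 ≤ 2 * (1 - t) * t by positivity)
    linarith
  have e7 : t * ((1 - t) / L) * B = (1 - t) * t * (B / L) := by ring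
  have e8 : t * (1 - t) / L * B = (1 - t) * t * (B / L) := by ring
  rw [e8]
  rw [e7] at h5
  linarith

/-- The `L^2` step. -/
theorem l2_step (hpot : PotStatement) (D : Dat γ μ t T R L Lam V) (n : ℕ) :
    (∫ x, ai γ μ t V (n + 1) x ^ 2) ≤
      (1 - t) * (∫ x, ai γ μ t V n x ^ 2) + t * ∫ x, bi γ μ t V n x ^ 2 := by
  have ha := sq_int (ai_bc hpot D n)
  have hb := sq_int (bi_bc hpot D n)
  rw [← integral_const_mul, ← integral_const_mul, ← integral_add (ha.const_mul _) (hb.const_mul _)]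
  refine integral_mono (sq_int (ai_bc hpot D (n + 1))) ((ha.const_mul _).add (hb.const_mul _))
    (fun x => ?_)
  show ai γ μ t V (n + 1) x ^ 2 ≤ (1 - t) * ai γ μ t V n x ^ 2 + t * bi γ μ t V n x ^ 2
  rw [ai_succ]
  have := D.t0
  have := D.t1
  nlinarith [mul_nonneg (mul_nonneg D.t0.le (sub_nonneg.2 D.t1.le))
    (sq_nonneg (ai γ μ t V n x - bi γ μ t V n x))]

/-! ### Sequences -/

/-- A linear recursion with a geometric source of larger ratio. -/
theorem rec_geo {u : ℕ → ℝ} {q s C : ℝ} (hs : 0 < s) (hqs : q < s)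
    (hC : 0 ≤ C) (h : ∀ n, u (n + 1) ≤ q * u n + C * s ^ n) (hq : 0 ≤ q) (n : ℕ) :
    u n ≤ (max (u 0) (C / (s - q))) * s ^ n := by
  set D := max (u 0) (C / (s - q)) with hD
  have hD0 : 0 ≤ D := (div_nonneg hC (sub_nonneg.2 hqs.le)).trans (le_max_right _ _)
  induction n with
  | zero =>
    rw [pow_zero, mul_one]
    exact le_max_left _ _
  | succ n ih =>
    have h1 : C ≤ D * (s - q) := by
      rw [← div_le_iff₀ (sub_pos.2 hqs)]
      exact le_max_right _ _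
    have hsn : 0 < s ^ n := pow_pos hs n
    calc u (n + 1) ≤ q * u n + C * s ^ n := h n
      _ ≤ q * (D * s ^ n) + D * (s - q) * s ^ n :=
        add_le_add (mul_le_mul_of_nonneg_left ih hq) (mul_le_mul_of_nonneg_right h1 hsn.le)
      _ = D * s ^ (n + 1) := by ring

theorem energy_decay (hpot : PotStatement) (hsym : SymStatement) (hadm : AdmStatement)
    (hpos : PosStatement) (D : Dat γ μ t T R L Lam V) {s : ℝ} (hs : 1 - t ≤ s) (hs1 : s ≤ 1)
    (n : ℕ) :
    En (ai γ μ t V n) (ai γ μ t V n) ≤ En (ai γ μ t V 0) (ai γ μ t V 0) * s ^ n := by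
  have ht1 : 0 < 1 - t := by linarith [D.t1]
  have ht0 := D.t0
  induction n with
  | zero => simp
  | succ n ih =>
    have h1 := energy_step hpot hsym D n
    have hB0 : 0 ≤ ∫ x, bi γ μ t V n x ^ 2 := integral_nonneg (fun x => sq_nonneg _)
    have hL := D.L0
    have h2 : 0 ≤ t * (1 - t) / L * ∫ x, bi γ μ t V n x ^ 2 := by positivity
    have h3 := pos_bc hadm hpos (ai_bc hpot D n)
    have h4 : (1 - t) ^ 2 ≤ s := by nlinarith
    calc En (ai γ μ t V (n + 1)) (ai γ μ t V (n + 1)) ≤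
          (1 - t) ^ 2 * En (ai γ μ t V n) (ai γ μ t V n) := by linarith
      _ ≤ s * En (ai γ μ t V n) (ai γ μ t V n) := mul_le_mul_of_nonneg_right h4 h3
      _ ≤ s * (En (ai γ μ t V 0) (ai γ μ t V 0) * s ^ n) :=
        mul_le_mul_of_nonneg_left ih (ht1.le.trans hs)
      _ = _ := by ring

theorem b_decay (hpot : PotStatement) (hsym : SymStatement) (hadm : AdmStatement)
    (hpos : PosStatement) (D : Dat γ μ t T R L Lam V) {s : ℝ} (hs : 1 - t ≤ s) (hs1 : s ≤ 1) :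
    ∃ C : ℝ, 0 ≤ C ∧ ∀ n, (∫ x, bi γ μ t V n x ^ 2) ≤ C * s ^ n := by
  have ht1 : 0 < 1 - t := by linarith [D.t1]
  have ht0 := D.t0
  have hL := D.L0
  have hc : 0 < t * (1 - t) / L := by positivity
  have hE0 := pos_bc hadm hpos (ai_bc hpot D 0)
  refine ⟨(1 - t) ^ 2 * En (ai γ μ t V 0) (ai γ μ t V 0) / (t * (1 - t) / L),
    by positivity, fun n => ?_⟩
  have h1 := energy_step hpot hsym D n
  have h3 := pos_bc hadm hpos (ai_bc hpot D (n + 1))
  have h5 := energy_decay hpot hsym hadm hpos D hs hs1 n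
  rw [div_mul_eq_mul_div, le_div_iff₀ hc]
  have h6 : (1 - t) ^ 2 * En (ai γ μ t V n) (ai γ μ t V n) ≤
      (1 - t) ^ 2 * (En (ai γ μ t V 0) (ai γ μ t V 0) * s ^ n) :=
    mul_le_mul_of_nonneg_left h5 (by positivity)
  linarith

theorem a_decay (hpot : PotStatement) (hsym : SymStatement) (hadm : AdmStatement)
    (hpos : PosStatement) (D : Dat γ μ t T R L Lam V) {s : ℝ} (hs : 1 - t < s) (hs1 : s ≤ 1) :
    ∃ C : ℝ, 0 ≤ C ∧ ∀ n, (∫ x, ai γ μ t V n x ^ 2) ≤ C * s ^ n := by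
  have ht1 : 0 < 1 - t := by linarith [D.t1]
  obtain ⟨C, hC, h⟩ := b_decay hpot hsym hadm hpos D hs.le hs1
  refine ⟨max (∫ x, ai γ μ t V 0 x ^ 2) ((t * C) / (s - (1 - t))),
    le_max_of_le_right (div_nonneg (mul_nonneg D.t0.le hC) (by linarith)), fun n => ?_⟩
  refine rec_geo (u := fun n => ∫ x, ai γ μ t V n x ^ 2) (q := 1 - t) (s := s) (C := t * C)
    (by linarith) hs (mul_nonneg D.t0.le hC) (fun n => ?_) ht1.le n
  have h1 := l2_step hpot D n
  have h2 := mul_le_mul_of_nonneg_left (h n) D.t0.le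
  show (∫ x, ai γ μ t V (n + 1) x ^ 2) ≤ (1 - t) * (∫ x, ai γ μ t V n x ^ 2) + t * C * s ^ n
  linarith

theorem pot_decay (hpot : PotStatement) (hsym : SymStatement) (hadm : AdmStatement)
    (hpos : PosStatement) (D : Dat γ μ t T R L Lam V) {r : ℝ} (hr0 : 0 < r) (hr : 1 - t < r ^ 2)
    (hr1 : r ≤ 1) :
    ∃ C : ℝ, 0 ≤ C ∧ ∀ n x, |pot (ai γ μ t V n) x| ≤ C * r ^ n := by
  obtain ⟨C, hC, h⟩ := a_decay hpot hsym hadm hpos D hr (by nlinarith)
  obtain ⟨Q, hQ⟩ := sq_kernel R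
  have hQ0 : 0 ≤ Q := le_trans (integral_nonneg (fun y => mul_nonneg (one_nonneg R y)
    (by positivity))) (hQ 0).2
  refine ⟨1 / 2 * C + 1 / 2 * Q, by positivity, fun n x => ?_⟩
  have hrn : 0 < r ^ n := pow_pos hr0 n
  have h1 := pot_sup hpot (ai_bc hpot D n) (ai_out hpot D n) hQ x hrn
  have h2 : (r ^ n)⁻¹ * (∫ y, ai γ μ t V n y ^ 2) ≤ C * r ^ n := by
    calc (r ^ n)⁻¹ * (∫ y, ai γ μ t V n y ^ 2) ≤ (r ^ n)⁻¹ * (C * (r ^ 2) ^ n) :=
          mul_le_mul_of_nonneg_left (h n) (by positivity)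
      _ = C * r ^ n := by
        rw [← pow_mul, mul_comm 2 n, pow_mul]
        field_simp
  calc |pot (ai γ μ t V n) x| ≤ _ := h1
    _ ≤ 1 / 2 * (C * r ^ n) + 1 / 2 * (r ^ n * Q) := by linarith
    _ = _ := by ring

theorem ai_decay (hpot : PotStatement) (hsym : SymStatement) (hadm : AdmStatement)
    (hpos : PosStatement) (D : Dat γ μ t T R L Lam V) {r : ℝ} (hr0 : 0 < r) (hr : 1 - t < r ^ 2)
    (hr1 : r ≤ 1) :
    ∃ C : ℝ, 0 ≤ C ∧ ∀ n x, |ai γ μ t V n x| ≤ C * r ^ n := by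
  have ht1 : 0 < 1 - t := by linarith [D.t1]
  obtain ⟨C, hC, h⟩ := pot_decay hpot hsym hadm hpos D hr0 hr hr1
  obtain ⟨M, hM⟩ := (ai_bc hpot D 0).bdd
  have hM0 : 0 ≤ M := (abs_nonneg _).trans (hM 0)
  have hqr : 1 - t < r := by nlinarith
  have hc0 : 0 ≤ (t * (L * C)) / (r - (1 - t)) :=
    div_nonneg (mul_nonneg D.t0.le (mul_nonneg D.L0.le hC)) (by linarith)
  refine ⟨max M ((t * (L * C)) / (r - (1 - t))), le_max_of_le_left hM0, fun n x => ?_⟩
  have h1 := rec_geo (u := fun n => |ai γ μ t V n x|) (q := 1 - t) (s := r) (C := t * (L * C))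
    hr0 hqr (mul_nonneg D.t0.le (mul_nonneg D.L0.le hC)) (fun n => ?_) ht1.le n
  · refine h1.trans (mul_le_mul_of_nonneg_right (max_le_max (hM x) le_rfl) (pow_pos hr0 n).le)
  · show |ai γ μ t V (n + 1) x| ≤ (1 - t) * |ai γ μ t V n x| + t * (L * C) * r ^ n
    rw [ai_succ]
    have h2 := bi_abs hpot D n x
    have h3 := mul_le_mul_of_nonneg_left (h n x) D.L0.le
    calc |(1 - t) * ai γ μ t V n x + t * bi γ μ t V n x| ≤
          |(1 - t) * ai γ μ t V n x| + |t * bi γ μ t V n x| := abs_add_le _ _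
      _ = (1 - t) * |ai γ μ t V n x| + t * |bi γ μ t V n x| := by
        rw [abs_mul, abs_mul, abs_of_pos ht1, abs_of_pos D.t0]
      _ ≤ (1 - t) * |ai γ μ t V n x| + t * (L * (C * r ^ n)) := by
        have := mul_le_mul_of_nonneg_left (h2.trans h3) D.t0.le
        linarith
      _ = _ := by ring

/-- Existence of the Thomas-Fermi density for the data `D`. -/
theorem exists_core (hpot : PotStatement) (hsym : SymStatement) (hadm : AdmStatement)
    (hpos : PosStatement) (D : Dat γ μ t T R L Lam V) :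
    ∃ ρ : E3 → ℝ, BC ρ ∧ (∀ x, 0 ≤ ρ x) ∧ ∀ x, ρ x = gf γ (V x - pot ρ x - μ) := by
  have ht0 := D.t0
  have ht1 : 0 < 1 - t := by linarith [D.t1]
  obtain ⟨r, hr0, hr, hr1⟩ : ∃ r : ℝ, 0 < r ∧ 1 - t < r ^ 2 ∧ r < 1 := by
    refine ⟨Real.sqrt (1 - t / 2), Real.sqrt_pos.2 (by linarith [D.t1]), ?_, ?_⟩
    · rw [Real.sq_sqrt (by linarith [D.t1])]
      linarith
    · rw [Real.sqrt_lt' one_pos]
      linarith
  obtain ⟨C, hC, h⟩ := ai_decay hpot hsym hadm hpos D hr0 hr hr1.le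
  have hcau : ∀ x, CauchySeq (fun n => it γ μ t V n x) := fun x =>
    cauchySeq_of_le_geometric r C hr1 (fun n => by
      rw [dist_comm, Real.dist_eq]
      exact h n x)
  choose ρ hρ using fun x => cauchySeq_tendsto_of_complete (hcau x)
  have hF := it_facts hpot D
  have hρ0 : ∀ x, 0 ≤ ρ x := fun x => ge_of_tendsto' (hρ x) (fun n => (hF n).2.1 x)
  have hρM : ∀ x, ρ x ≤ gf γ T := fun x => le_of_tendsto' (hρ x) (fun n => (hF n).2.2.1 x)
  have hρout : ∀ x, R < ‖x‖ → ρ x = 0 := fun x hx =>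
    tendsto_nhds_unique (hρ x) (by
      have : (fun n => it γ μ t V n x) = fun _ => 0 := by
        funext n; exact (hF n).2.2.2 x hx
      rw [this]; exact tendsto_const_nhds)
  have hmeas : Measurable ρ :=
    measurable_of_tendsto_metrizable (fun n => (hF n).1.meas) (tendsto_pi_nhds.2 hρ)
  have hbc : BC ρ := ⟨hmeas, ⟨gf γ T, fun x => by rw [abs_of_nonneg (hρ0 x)]; exact hρM x⟩,
    ⟨R, hρout⟩⟩
  have hdom : BC (fun x => gf γ T * one R x) := bc_const_mul _ (bc_one R)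
  have hpott : ∀ x, Tendsto (fun n => pot (it γ μ t V n) x) atTop (𝓝 (pot ρ x)) := by
    intro x
    refine tendsto_integral_of_dominated_convergence (fun y => gf γ T * one R y / ‖x - y‖)
      (fun n => ((hpot _ (hF n).1).1 x).aestronglyMeasurable) ((hpot _ hdom).1 x)
      (fun n => Filter.Eventually.of_forall (fun y => ?_))
      (Filter.Eventually.of_forall (fun y => (hρ y).div_const _))
    rw [Real.norm_eq_abs, abs_of_nonneg (div_nonneg ((hF n).2.1 y) (norm_nonneg _))]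
    refine div_le_div_of_nonneg_right ?_ (norm_nonneg _)
    rcases le_or_gt ‖y‖ R with hy | hy
    · rw [one_in hy, mul_one]; exact (hF n).2.2.1 y
    · rw [one_out hy, mul_zero, (hF n).2.2.2 y hy]
  refine ⟨ρ, hbc, hρ0, fun x => ?_⟩
  have h1 : Tendsto (fun n => it γ μ t V (n + 1) x) atTop (𝓝 (ρ x)) :=
    (hρ x).comp (tendsto_add_atTop_nat 1)
  have h2 : Tendsto (fun n => it γ μ t V (n + 1) x) atTop
      (𝓝 ((1 - t) * ρ x + t * gf γ (V x - pot ρ x - μ))) := by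
    refine Tendsto.add ((hρ x).const_mul _) (Tendsto.const_mul _ ?_)
    exact ((gf_cont γ).tendsto _).comp (((hpott x).const_sub (V x)).sub_const μ)
  have h3 := tendsto_nhds_unique h1 h2
  have h4 : t * ρ x = t * gf γ (V x - pot ρ x - μ) := by linarith
  exact mul_left_cancel₀ ht0.ne' h4

end Pool.Agent.Lib.MP_405077_mp.H40
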